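import Mathlib

open Finset MeasureTheory ProbabilityTheory
open scoped ENNReal

namespace Pool.Agent.Results.MP_f93fdf_pr.Two

/-- birth times; the children of `u` are `0 :: u, 1 :: u, …` in order of birth -/
noncomputable def B (X : List ℕ → ℝ≥0∞) : List ℕ → ℝ≥0∞
  | [] => 0
  | i :: u => B X u + ∑ j ∈ range (i + 1), X (j :: u)

/-- the individuals born before the explosion time -/
def T (X : List ℕ → ℝ≥0∞) : Set (List ℕ) := {x | B X x < sInf {t | {y | B X y ≤ t}.Infinite}}

theorem result : ∃ (Ω : Type) (_ : MeasurableSpace Ω) (P : Measure Ω) (_ : IsProbabilityMeasure P)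
    (X : List ℕ → Ω → ℝ≥0∞), (∀ x, Measurable (X x)) ∧ iIndepFun X P ∧
    (∀ j u, IdentDistrib (X (j :: u)) (X [j]) P P) ∧ (∀ x ω, 0 < X x ω) ∧
    (∀ ω, (T fun x => X x ω).Infinite ∧ sInf {t | {y | B (fun x => X x ω) y ≤ t}.Infinite} < ∞) ∧
    ∃ A, MeasurableSet A ∧ 0 < P A ∧ ∀ ω ∈ A, ∃ u v, u ≠ v ∧
      {i | i :: u ∈ T fun x => X x ω}.Infinite ∧ {i | i :: v ∈ T fun x => X x ω}.Infinite := by
  let ν := (PMF.uniformOfFintype Bool).toMeasure
  let f : ℕ → Bool → ℝ := fun j c => (1 / 2) ^ j + if j = 1 ∧ c then 1 else 0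
  have f0 : ∀ j c, 0 < f j c := fun j c => by simp only [f]; split_ifs <;> positivity
  let X : List ℕ → (List ℕ → Bool) → ℝ≥0∞ := fun x ω => .ofReal (f (x.headD 0) (ω x))
  let s : Bool → ℕ → ℝ := fun c i => 2 - (1 / 2) ^ i + if 1 ≤ i ∧ c then 1 else 0
  have p1 : ∀ i : ℕ, (0 : ℝ) < (1 / 2) ^ i ∧ (1 / 2 : ℝ) ^ i ≤ 1 := fun i =>
    ⟨by positivity, pow_le_one₀ (by norm_num) (by norm_num)⟩
  have s1 : ∀ c i, 2 - (1 / 2) ^ i ≤ s c i := fun c i => by simp only [s]; split_ifs <;> linarith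
  have e : ∀ ω u i, B (X · ω) (i :: u) = B (X · ω) u + .ofReal (s (ω (1 :: u)) i) := fun ω u i => by
    rw [B, ← ENNReal.ofReal_sum_of_nonneg fun j _ => (f0 _ _).le]
    congr 2
    induction i with
    | zero => norm_num [f, s]
    | succ i ih =>
      rw [sum_range_succ, ih]
      rcases i with _ | i <;> simp [f, s, pow_succ] <;> ring
  have inf : ∀ {S : Set (List ℕ)} u, (∀ i, i :: u ∈ S) → {i | i :: u ∈ S}.Infinite ∧ S.Infinite :=
    fun u h => ⟨Set.infinite_univ.mono fun i _ => h i,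
      Set.infinite_of_injective_forall_mem (f := (· :: u)) (fun _ _ h => by simpa using h) h⟩
  have lt : ∀ c i, s c i < 2 + if c then 1 else 0 := fun c i => by
    simp only [s]; split_ifs <;> first | tauto | linarith [p1 i]
  have τ : ∀ ω, sInf {t | {y | B (X · ω) y ≤ t}.Infinite} = .ofReal (2 + if ω [1] then 1 else 0) := fun ω => by
    refine le_antisymm (sInf_le (inf [] fun i => ?_).2) (le_sInf fun t ht => le_of_not_gt fun l => ht ?_)
    · exact (e ω [] i).trans_le ((zero_add _).trans_le (ENNReal.ofReal_le_ofReal (lt _ i).le))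
    lift t to NNReal using l.ne_top
    replace l := ENNReal.coe_lt_ofReal.1 l
    obtain ⟨N, hN⟩ := exists_pow_lt_of_lt_one (sub_pos.2 l) (one_half_lt_one (α := ℝ))
    have t3 : (2 + if ω [1] then 1 else 0 : ℝ) ≤ 3 := by split_ifs <;> norm_num
    have a : ∀ i : ℕ, (2 + if ω [1] then 1 else 0) - (1 / 2 : ℝ) ^ i ≤ t → i ≤ N := fun i h =>
      le_of_not_gt fun c => by
        linarith [pow_le_pow_of_le_one (one_half_pos (α := ℝ)).le one_half_lt_one.le c.le]
    have b : ∀ i, s (ω [1]) i ≤ t → i ≤ N := fun i h => i.eq_zero_or_pos.elim (by omega) fun c =>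
      a i (by simp only [s, show 1 ≤ i from c, true_and] at h; linarith)
    have s0 : ∀ c i, 1 ≤ s c i := fun c i => by linarith [s1 c i, p1 i]
    refine ((((Set.finite_le_nat N).image fun i => [i]).union (((Set.finite_le_nat N).prod
      (Set.finite_le_nat N)).image fun p => [p.1, p.2])).insert []).subset ?_
    rintro (_ | ⟨i, _ | ⟨j, _ | ⟨k, u⟩⟩⟩) h <;>
      simp only [Set.mem_ofPred_eq, e, add_assoc, show B (X · ω) [] = 0 from rfl, zero_add] at h
    · simp
    · exact .inr (.inl ⟨i, b i (ENNReal.ofReal_le_coe.1 h), rfl⟩)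
    · rw [← ENNReal.ofReal_add (by linarith [s0 (ω [1]) j]) (by linarith [s0 (ω [1, j]) i]),
        ENNReal.ofReal_le_coe] at h
      exact .inr (.inr ⟨(i, j), ⟨a i (by linarith [s0 (ω [1]) j, s1 (ω [1, j]) i]),
        b j (by linarith [s0 (ω [1, j]) i])⟩, rfl⟩)
    · have u1 := s0 (ω (1 :: u)) k
      have u2 := s0 (ω (1 :: k :: u)) j
      have u3 := s0 (ω (1 :: j :: k :: u)) i
      have := le_add_self.trans h
      rw [← ENNReal.ofReal_add (by linarith) (by linarith), ← ENNReal.ofReal_add (by linarith)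
        (by linarith), ENNReal.ofReal_le_coe] at this
      linarith
  have r : ∀ ω i, [i] ∈ T (X · ω) := fun ω i => by
    rw [T, τ]
    exact (e ω [] i).trans_lt ((zero_add _).trans_lt
      ((ENNReal.ofReal_lt_ofReal_iff (by split_ifs <;> norm_num)).2 (lt (ω [1]) i)))
  have m : ∀ x, (Measure.infinitePi fun _ : List ℕ => ν).map (X x) =
      ν.map fun c => ENNReal.ofReal (f (x.headD 0) c) := fun x => by
    conv_rhs => rw [← Measure.infinitePi_map_eval (fun _ : List ℕ => ν) x]
    exact (Measure.map_map (g := fun c => ENNReal.ofReal (f (x.headD 0) c)) .of_discrete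
      (measurable_pi_apply x)).symm
  have mX : ∀ x, Measurable (X x) := fun x =>
    (Measurable.of_discrete (f := fun c => ENNReal.ofReal (f (x.headD 0) c))).comp (measurable_pi_apply x)
  refine ⟨_, _, Measure.infinitePi fun _ : List ℕ => ν, inferInstance, X, mX,
    iIndepFun_infinitePi (X := fun (x : List ℕ) c => ENNReal.ofReal (f (x.headD 0) c)) fun _ => .of_discrete,
    fun j u => ⟨(mX _).aemeasurable, (mX _).aemeasurable, (m _).trans (m [j]).symm⟩,
    fun x ω => ENNReal.ofReal_pos.2 (f0 _ _), fun ω => ⟨(inf [] (r ω)).2, τ ω ▸ ENNReal.ofReal_lt_top⟩,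
    Set.pi ({[1], [1, 0]} : Finset (List ℕ)) fun x => {x == [1]}, .pi (countable_toSet _)
      fun _ _ => .of_discrete, ?_, fun ω h => ⟨[], [0], by simp, (inf [] (r ω)).1, (inf _ fun i => ?_).1⟩⟩
  · rw [Measure.infinitePi_pi _ fun _ _ => .of_discrete]
    exact pos_iff_ne_zero.2 (prod_ne_zero_iff.2 fun x _ => by simp [ν])
  · have h1 : ω [1] = true := h [1] (by simp)
    have h2 : ω [1, 0] = false := h [1, 0] (by simp)
    simp only [T, τ, e, Set.mem_ofPred_eq, h1, h2, show B (X · ω) [] = 0 from rfl, zero_add]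
    rw [← ENNReal.ofReal_add (by norm_num [s]) (by linarith [s1 false i, p1 i]),
      ENNReal.ofReal_lt_ofReal_iff (by norm_num)]
    have := lt false i
    norm_num [s] at this ⊢
    linarith [p1 i]

end Pool.Agent.Results.MP_f93fdf_pr.Two
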